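import Mathlib
import Pool.Agent.HL26.SieveD
import Pool.Agent.HLT.Mertens

set_option autoImplicit false

/-!
# Small factorials in `n = k + m` with `k! + p_m` prime

Among the integers up to `X` at most `C ε X` have a representation `n = k + m` such that
`k! + p_m` is prime, `k ≥ 2` and `k! ≤ X ^ ε`.
-/

open Finset Filter

namespace Pool.Agent.Results.MP_de6458_nt.SmallFactorials

open Pool.Agent.HL26 Pool.Agent.HLT

/-- the `m`-th prime: `pr 1 = 2`, `pr 2 = 3`, .. -/
noncomputable def pr (m : ℕ) : ℕ := Nat.nth Nat.Prime (m - 1)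

/-- the pairs `(k, m)` with `k ≥ 2`, `m ≥ 1`, `k + m ≤ X`, `k! ≤ X ^ ε` and `k! + p_m` prime -/
noncomputable def reps (X : ℕ) (ε : ℝ) : Finset (ℕ × ℕ) :=
  ((Finset.Icc 2 X) ×ˢ (Finset.Icc 1 X)).filter (fun q => q.1 + q.2 ≤ X ∧
    ((q.1.factorial : ℕ) : ℝ) ≤ (X : ℝ) ^ ε ∧ (q.1.factorial + pr q.2).Prime)

/-! ### the singular series of the pair `0, k!` -/

lemma pair_card (k : ℕ) : ({0, k.factorial} : Finset ℕ).card = 2 := by
  rw [Finset.card_pair]
  exact (Nat.factorial_pos k).ne

lemma nu_small {k p : ℕ} (hp : p.Prime) (hpk : p ≤ k) : nu {0, k.factorial} p = 1 := by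
  unfold nu
  have h : ((k.factorial : ℕ) : ZMod p) = 0 :=
    (ZMod.natCast_eq_zero_iff _ _).mpr ((hp.dvd_factorial).mpr hpk)
  rw [Finset.image_insert, Finset.image_singleton, h]
  simp

lemma pair_adm {k : ℕ} (hk : 2 ≤ k) (p : ℕ) (hp : p.Prime) : nu {0, k.factorial} p < p := by
  by_cases hpk : p ≤ k
  · rw [nu_small hp hpk]; exact hp.one_lt
  · have h1 : nu {0, k.factorial} p ≤ 2 := by
      unfold nu
      exact Finset.card_image_le.trans (pair_card k).le
    omega

lemma log_factorial_le (k : ℕ) : Real.log k.factorial ≤ k * Real.log k := by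
  have h1 : ((k.factorial : ℕ) : ℝ) ≤ (k : ℝ) ^ k := by exact_mod_cast Nat.factorial_le_pow k
  have h2 := Real.log_le_log (by exact_mod_cast Nat.factorial_pos k) h1
  rwa [Real.log_pow] at h2

/-- the singular series of `0, k!` is at most `C log k` -/
lemma sing_le : ∃ C : ℝ, 0 < C ∧ ∀ k : ℕ, 2 ≤ k →
    singularSeries {0, k.factorial} ≤ C * Real.log k := by
  obtain ⟨C, hC, hM⟩ := th_lower
  refine ⟨C * Real.exp 8, by positivity, fun k hk => ?_⟩
  have hk2 : (2:ℝ) ≤ k := by exact_mod_cast hk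
  have hlog : 0 < Real.log k := Real.log_pos (by linarith)
  have h1 := singularSeries_le {0, k.factorial} (by simp) k k.factorial hk
    (Nat.factorial_pos k) (by
      intro e he
      rw [Finset.mem_insert, Finset.mem_singleton] at he
      rcases he with rfl | rfl
      · exact Nat.zero_le _
      · exact le_rfl)
  rw [pair_card] at h1
  have h2 : Real.exp (((2:ℕ) : ℝ) ^ 3 * Real.log (k.factorial : ℕ) / (k * Real.log k)) ≤ Real.exp 8 := by
    apply Real.exp_le_exp.mpr
    rw [div_le_iff₀ (by positivity)]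
    have := log_factorial_le k
    push_cast
    linarith
  have h3 : SP (PPy k) {0, k.factorial} ≤ C * Real.log k := by
    have e1 : SP (PPy k) {0, k.factorial} = (th 0 k)⁻¹ := by
      unfold SP th
      rw [← Finset.prod_inv_distrib]
      have e2 : (PPy k).filter (fun p => 0 < p) = PPy k := by
        apply Finset.filter_true_of_mem
        intro p hp
        exact (PPy_prime k p hp).pos
      rw [e2]
      apply Finset.prod_congr rfl
      intro p hp
      have hpp := PPy_prime k p hp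
      have hpk : p ≤ k := by
        unfold PPy at hp
        rw [Finset.mem_filter, Finset.mem_range] at hp
        omega
      have hpos : (0:ℝ) < 1 - 1 / (p:ℝ) := by
        have h2 : (2:ℝ) ≤ p := by exact_mod_cast hpp.two_le
        have : 1 / (p:ℝ) ≤ 1 / 2 := one_div_le_one_div_of_le (by norm_num) h2
        linarith
      rw [pair_card, nu_small hpp hpk]
      push_cast
      field_simp
    rw [e1]
    exact hM 0 k hk
  have h4 : 0 ≤ SP (PPy k) {0, k.factorial} := SP_nonneg _ (PPy_prime k) _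
  calc singularSeries {0, k.factorial} ≤ _ := h1
    _ ≤ (C * Real.log k) * Real.exp 8 := by
        apply mul_le_mul h3 h2 (Real.exp_pos _).le
        positivity
    _ = C * Real.exp 8 * Real.log k := by ring

/-! ### the `m`-th prime -/

lemma pr_prime (m : ℕ) : (pr m).Prime := Nat.prime_nth_prime _

lemma pr_injOn : Set.InjOn pr {m | 1 ≤ m} := by
  intro a ha b hb hab
  have h := Nat.nth_injective Nat.infinite_setOfPred_prime hab
  simp only [Set.mem_ofPred_eq] at ha hb
  omega

/-- `p_m ≤ 4 X log X` for `m ≤ X`, `X` large -/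
lemma pr_le : ∀ᶠ X : ℕ in atTop, ∀ m : ℕ, m ≤ X → (pr m : ℝ) ≤ 4 * (X * Real.log X) := by
  have ev : ∀ᶠ X : ℕ in atTop, (X : ℝ) ≤ Nat.primeCounting ⌊4 * (X * Real.log X)⌋₊ := by
    have e1 : ∀ᶠ X : ℕ in atTop, 4 * Real.log X ≤ X := by
      have h := (Real.isLittleO_log_id_atTop.bound (show (0:ℝ) < 1 / 4 by norm_num))
      have h' := tendsto_natCast_atTop_atTop (R := ℝ) |>.eventually h
      filter_upwards [h', eventually_ge_atTop 1] with X hX hX1
      have h1 : (1:ℝ) ≤ X := by exact_mod_cast hX1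
      rw [Real.norm_of_nonneg (Real.log_nonneg h1), id, Real.norm_of_nonneg (by linarith)] at hX
      linarith
    have e2 : ∀ᶠ X : ℕ in atTop, (4:ℝ) ≤ Real.log X :=
      (Real.tendsto_log_atTop.comp (tendsto_natCast_atTop_atTop (R := ℝ))).eventually_ge_atTop _
    filter_upwards [e1, e2, eventually_ge_atTop 4] with X h1 h2 hX4
    have hX : (4:ℝ) ≤ X := by exact_mod_cast hX4
    set n := ⌊4 * ((X:ℝ) * Real.log X)⌋₊ with hn
    have hn1 : (n:ℝ) ≤ 4 * (X * Real.log X) := Nat.floor_le (by positivity)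
    have hn2 : 4 * (X * Real.log X) - 1 < n := by
      have := Nat.lt_floor_add_one (4 * ((X:ℝ) * Real.log X))
      rw [← hn] at this
      linarith
    have hXL : 16 ≤ X * Real.log X := by nlinarith
    have hnX : (n:ℝ) ≤ (X:ℝ) ^ 2 := by nlinarith
    have hn0 : (1:ℝ) < n := by linarith
    have hlogn : Real.log n ≤ 2 * Real.log X := by
      have h := Real.log_le_log (by linarith) hnX
      rw [Real.log_pow] at h
      push_cast at h
      exact h
    have hlogn0 : 0 < Real.log n := Real.log_pos hn0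
    have hlogn1 : Real.log (n + 1) ≤ 2 * Real.log X + 1 := by
      have h : Real.log ((n:ℝ) + 1) ≤ Real.log ((X:ℝ) ^ 2 * 2) := by
        apply Real.log_le_log (by linarith)
        nlinarith
      rw [Real.log_mul (by positivity) (by norm_num), Real.log_pow] at h
      have h3 := Real.log_two_lt_d9
      push_cast at h
      linarith
    refine le_trans ?_ (Chebyshev.pi_ge n)
    rw [le_div_iff₀ hlogn0]
    have h3 := Real.log_two_gt_d9
    have h4 : X * Real.log n ≤ X * (2 * Real.log X) := by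
      apply mul_le_mul_of_nonneg_left hlogn (by linarith)
    have h5 : (4 * (X * Real.log X) - 1) * 0.69 ≤ n * Real.log 2 := by
      apply mul_le_mul hn2.le (by linarith) (by norm_num) (by linarith)
    nlinarith
  filter_upwards [ev, eventually_ge_atTop 1] with X hX hX1 m hm
  have h1 : m - 1 < Nat.primeCounting ⌊4 * (X * Real.log X)⌋₊ := by
    have : X ≤ Nat.primeCounting ⌊4 * (X * Real.log X)⌋₊ := by exact_mod_cast hX
    omega
  have h2 : pr m ≤ ⌊4 * (X * Real.log X)⌋₊ := by
    by_contra hcon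
    push Not at hcon
    unfold pr at hcon
    have h3 : Nat.primeCounting ⌊4 * (X * Real.log X)⌋₊ ≤ m - 1 := by
      rw [Nat.primeCounting, Nat.primeCounting']
      have := Nat.count_monotone Nat.Prime (show ⌊4 * ((X:ℝ) * Real.log X)⌋₊ + 1 ≤ Nat.nth Nat.Prime (m - 1) by omega)
      rwa [Nat.count_nth_of_infinite Nat.infinite_setOfPred_prime] at this
    omega
  have h0 : (0:ℝ) ≤ 4 * (X * Real.log X) := by
    have : 0 ≤ Real.log X := Real.log_natCast_nonneg X
    positivity
  calc (pr m : ℝ) ≤ (⌊4 * ((X:ℝ) * Real.log X)⌋₊ : ℝ) := by exact_mod_cast h2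
    _ ≤ _ := Nat.floor_le h0

/-- `1! + p_m` is prime only for `m = 1` -/
lemma eq_one_of_prime {m : ℕ} (hm : 1 ≤ m) (h : (Nat.factorial 1 + pr m).Prime) : m = 1 := by
  have hp := pr_prime m
  rcases hp.eq_two_or_odd with h2 | h2
  · have h1 : pr 1 = 2 := by
      unfold pr
      simp
    exact pr_injOn (by simpa using hm) (by simp) (h2.trans h1.symm)
  · exfalso
    rw [Nat.factorial_one] at h
    rcases h.eq_two_or_odd with h3 | h3
    · have := hp.two_le
      omega
    · omega

/-! ### the count -/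

lemma sum_log_eq (K : ℕ) : ∑ k ∈ Finset.Icc 1 K, Real.log k = Real.log K.factorial := by
  induction K with
  | zero => simp
  | succ K ih =>
    rw [Finset.sum_Icc_succ_top (by omega), ih, Nat.factorial_succ, Nat.cast_mul,
      Real.log_mul (by positivity) (by exact_mod_cast (Nat.factorial_pos K).ne'), add_comm]

lemma sum_log_le (S : Finset ℕ) (B : ℝ) (hB : 0 ≤ B) (hS : ∀ k ∈ S, 2 ≤ k ∧ Real.log k.factorial ≤ B) :
    ∑ k ∈ S, Real.log k ≤ B := by
  rcases S.eq_empty_or_nonempty with rfl | hne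
  · simpa using hB
  · set K := S.max' hne with hK
    have hKS : K ∈ S := S.max'_mem hne
    have h1 : S ⊆ Finset.Icc 1 K := by
      intro k hk
      rw [Finset.mem_Icc]
      exact ⟨by have := (hS k hk).1; omega, S.le_max' k hk⟩
    have h2 : ∑ k ∈ S, Real.log k ≤ ∑ k ∈ Finset.Icc 1 K, Real.log k := by
      apply Finset.sum_le_sum_of_subset_of_nonneg h1
      intro k _ _
      exact Real.log_natCast_nonneg k
    have h3 : ∑ k ∈ Finset.Icc 1 K, Real.log k = Real.log K.factorial := sum_log_eq K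
    rw [h3] at h2
    exact h2.trans (hS K hKS).2

lemma count_k : ∃ C : ℝ, 0 < C ∧ ∀ᶠ X : ℕ in atTop, ∀ k : ℕ, 2 ≤ k →
    ((((Finset.Icc 1 X).filter (fun m => (k.factorial + pr m).Prime)).card : ℕ) : ℝ) ≤
      C * (Real.log k * (X / Real.log X)) := by
  obtain ⟨C1, hC1, hs⟩ := exists_sieve_bound 2 (by norm_num)
  obtain ⟨C2, hC2, hsing⟩ := sing_le
  refine ⟨C1 * C2 * 4, by positivity, ?_⟩
  have ht : Tendsto (fun X : ℕ => 4 * ((X:ℝ) * Real.log X)) atTop atTop := by
    apply Tendsto.const_mul_atTop (by norm_num)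
    exact (tendsto_natCast_atTop_atTop (R := ℝ)).atTop_mul_atTop₀
      (Real.tendsto_log_atTop.comp (tendsto_natCast_atTop_atTop (R := ℝ)))
  have e2 : ∀ᶠ X : ℕ in atTop, (1:ℝ) ≤ Real.log X :=
    (Real.tendsto_log_atTop.comp (tendsto_natCast_atTop_atTop (R := ℝ))).eventually_ge_atTop _
  filter_upwards [ht.eventually hs, pr_le, e2, eventually_ge_atTop 1] with X hX hpr hl hX1 k hk
  have hXr : (1:ℝ) ≤ X := by exact_mod_cast hX1
  have hcount : ((Finset.Icc 1 X).filter (fun m => (k.factorial + pr m).Prime)).card ≤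
      tupleCount (4 * ((X:ℝ) * Real.log X)) {0, k.factorial} := by
    unfold tupleCount
    apply Finset.card_le_card_of_injOn pr
    · intro m hm
      rw [Finset.mem_coe, Finset.mem_filter, Finset.mem_Icc] at hm
      rw [Finset.mem_coe, Finset.mem_filter, Finset.mem_Icc]
      refine ⟨⟨(pr_prime m).one_lt.le, Nat.le_floor (hpr m hm.1.2)⟩, ?_⟩
      intro e he
      rw [Finset.mem_insert, Finset.mem_singleton] at he
      rcases he with rfl | rfl
      · simpa using pr_prime m
      · rw [add_comm]; exact hm.2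
    · intro a ha b hb hab
      rw [Finset.mem_coe, Finset.mem_filter, Finset.mem_Icc] at ha hb
      exact pr_injOn (by simpa using ha.1.1) (by simpa using hb.1.1) hab
  have h1 := hX {0, k.factorial} (pair_card k) (pair_adm hk)
  have h2 := hsing k hk
  have hk0 : 0 ≤ Real.log k := Real.log_natCast_nonneg k
  have hlx : Real.log X ≤ Real.log (4 * ((X:ℝ) * Real.log X)) := by
    apply Real.log_le_log (by linarith)
    nlinarith
  have h3 : 4 * ((X:ℝ) * Real.log X) / (Real.log (4 * ((X:ℝ) * Real.log X))) ^ 2 ≤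
      4 * (X / Real.log X) := by
    calc 4 * ((X:ℝ) * Real.log X) / (Real.log (4 * ((X:ℝ) * Real.log X))) ^ 2
        ≤ 4 * ((X:ℝ) * Real.log X) / (Real.log X) ^ 2 := by
          apply div_le_div_of_nonneg_left (by positivity) (by positivity)
          exact pow_le_pow_left₀ (by linarith) hlx 2
      _ = 4 * (X / Real.log X) := by
          have : Real.log X ≠ 0 := by linarith
          field_simp
  have h4 : 0 ≤ 4 * ((X:ℝ) * Real.log X) / (Real.log (4 * ((X:ℝ) * Real.log X))) ^ 2 := by
    positivity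
  calc ((((Finset.Icc 1 X).filter (fun m => (k.factorial + pr m).Prime)).card : ℕ) : ℝ)
      ≤ (tupleCount (4 * ((X:ℝ) * Real.log X)) {0, k.factorial} : ℝ) := by exact_mod_cast hcount
    _ ≤ C1 * (singularSeries {0, k.factorial} *
          (4 * ((X:ℝ) * Real.log X) / (Real.log (4 * ((X:ℝ) * Real.log X))) ^ 2)) := h1
    _ ≤ C1 * ((C2 * Real.log k) * (4 * (X / Real.log X))) := by
        apply mul_le_mul_of_nonneg_left _ hC1.le
        exact mul_le_mul h2 h3 h4 (by positivity)
    _ = C1 * C2 * 4 * (Real.log k * (X / Real.log X)) := by ring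

/-- the mean number of representations with small factorial -/
theorem mean_bound : ∃ C : ℝ, 0 < C ∧ ∀ᶠ X : ℕ in atTop, ∀ ε : ℝ, 0 ≤ ε →
    ((reps X ε).card : ℝ) ≤ C * ε * X := by
  obtain ⟨C, hC, h⟩ := count_k
  refine ⟨C, hC, ?_⟩
  filter_upwards [h, eventually_ge_atTop 3] with X hX hX3 ε hε
  have hXr : (3:ℝ) ≤ X := by exact_mod_cast hX3
  have hlog : 0 < Real.log X := Real.log_pos (by linarith)
  set S := (Finset.Icc 2 X).filter (fun k => ((k.factorial : ℕ) : ℝ) ≤ (X : ℝ) ^ ε) with hS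
  have hsub : reps X ε ⊆ S.biUnion (fun k =>
      ((Finset.Icc 1 X).filter (fun m => (k.factorial + pr m).Prime)).image (fun m => (k, m))) := by
    intro q hq
    unfold reps at hq
    rw [Finset.mem_filter, Finset.mem_product] at hq
    obtain ⟨⟨h1, h2⟩, h3, h4, h5⟩ := hq
    rw [Finset.mem_biUnion]
    refine ⟨q.1, ?_, ?_⟩
    · rw [hS, Finset.mem_filter]
      exact ⟨h1, h4⟩
    · rw [Finset.mem_image]
      exact ⟨q.2, Finset.mem_filter.mpr ⟨h2, h5⟩, rfl⟩
  have hcard : ((reps X ε).card : ℝ) ≤ ∑ k ∈ S, C * (Real.log k * (X / Real.log X)) := by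
    calc ((reps X ε).card : ℝ) ≤ ((∑ k ∈ S,
          ((Finset.Icc 1 X).filter (fun m => (k.factorial + pr m).Prime)).card : ℕ) : ℝ) := by
          have h1 := (Finset.card_le_card hsub).trans Finset.card_biUnion_le
          exact_mod_cast h1.trans (Finset.sum_le_sum (fun k _ => Finset.card_image_le))
      _ ≤ _ := by
          push_cast
          apply Finset.sum_le_sum
          intro k hk
          rw [hS, Finset.mem_filter, Finset.mem_Icc] at hk
          exact hX k hk.1.1
  have hsum : ∑ k ∈ S, Real.log k ≤ ε * Real.log X := by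
    apply sum_log_le S _ (by positivity)
    intro k hk
    rw [hS, Finset.mem_filter, Finset.mem_Icc] at hk
    refine ⟨hk.1.1, ?_⟩
    have h1 := Real.log_le_log (by exact_mod_cast Nat.factorial_pos k) hk.2
    rwa [Real.log_rpow (by linarith)] at h1
  calc ((reps X ε).card : ℝ) ≤ ∑ k ∈ S, C * (Real.log k * (X / Real.log X)) := hcard
    _ = C * (X / Real.log X) * ∑ k ∈ S, Real.log k := by
        rw [Finset.mul_sum]
        apply Finset.sum_congr rfl
        intro k _
        ring
    _ ≤ C * (X / Real.log X) * (ε * Real.log X) := by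
        apply mul_le_mul_of_nonneg_left hsum (by positivity)
    _ = C * ε * X := by
        field_simp

/-- `n = k + m` with `k, m ≥ 1`, `k! ≤ B` and `k! + p_m` prime is possible -/
def Rep (n : ℕ) (B : ℝ) : Prop :=
  ∃ k m : ℕ, 1 ≤ k ∧ 1 ≤ m ∧ k + m = n ∧ ((k.factorial : ℕ) : ℝ) ≤ B ∧ (k.factorial + pr m).Prime

open Classical in
/-- the set of the positive integers with the property `P` has natural density `0` -/
def DensityZero (P : ℕ → Prop) : Prop :=
  Tendsto (fun X : ℕ => (((Finset.Icc 1 X).filter P).card : ℝ) / X) atTop (nhds 0)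

lemma mem_image_reps {X n : ℕ} {ε B : ℝ} (hn : 3 ≤ n) (hnX : n ≤ X) (hB : B ≤ (X:ℝ) ^ ε)
    (h : Rep n B) : n ∈ (reps X ε).image (fun q => q.1 + q.2) := by
  obtain ⟨k, m, hk, hm, hkm, hkB, hp⟩ := h
  have hk2 : 2 ≤ k := by
    by_contra hcon
    have : k = 1 := by omega
    subst this
    have := eq_one_of_prime hm hp
    omega
  rw [Finset.mem_image]
  refine ⟨(k, m), ?_, hkm⟩
  unfold reps
  rw [Finset.mem_filter, Finset.mem_product, Finset.mem_Icc, Finset.mem_Icc]
  exact ⟨⟨⟨hk2, by omega⟩, ⟨hm, by omega⟩⟩, by omega, hkB.trans hB, hp⟩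

theorem density_zero (e : ℕ → ℝ) (he : Tendsto e atTop (nhds 0)) (P : ℕ → Prop) (n₁ : ℕ)
    (hP : ∀ n, n₁ ≤ n → P n → Rep n ((n:ℝ) ^ (e n))) : DensityZero P := by
  classical
  obtain ⟨C, hC, hmean⟩ := mean_bound
  unfold DensityZero
  rw [Metric.tendsto_atTop]
  intro η hη
  set δ : ℝ := η / (4 * C) with hδ
  have hδ0 : 0 < δ := by positivity
  obtain ⟨n₀, hn₀⟩ := eventually_atTop.mp (he.eventually (gt_mem_nhds hδ0))
  obtain ⟨X₀, hX₀⟩ := eventually_atTop.mp hmean
  set A := n₀ + n₁ + 3 with hA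
  obtain ⟨X₁, hX₁⟩ := exists_nat_gt ((A:ℝ) * 4 / η)
  refine ⟨max X₀ (X₁ + 1), fun X hX => ?_⟩
  have hXX₀ : X₀ ≤ X := (le_max_left _ _).trans hX
  have hXX₁ : X₁ + 1 ≤ X := (le_max_right _ _).trans hX
  have hXpos : (0:ℝ) < X := by
    have : 0 < X := by omega
    exact_mod_cast this
  have hX1r : (A:ℝ) * 4 / η < X := by
    have : (X₁:ℝ) ≤ X := by exact_mod_cast (by omega : X₁ ≤ X)
    linarith
  have hsub : (Finset.Icc 1 X).filter P ⊆
      Finset.Icc 1 A ∪ (reps X δ).image (fun q => q.1 + q.2) := by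
    intro n hn
    rw [Finset.mem_filter, Finset.mem_Icc] at hn
    rw [Finset.mem_union, Finset.mem_Icc]
    by_cases hnA : n ≤ A
    · exact Or.inl ⟨hn.1.1, hnA⟩
    · refine Or.inr (mem_image_reps (by omega) hn.1.2 ?_ (hP n (by omega) hn.2))
      have h1 : (1:ℝ) ≤ n := by exact_mod_cast hn.1.1
      have h2 : (n:ℝ) ≤ X := by exact_mod_cast hn.1.2
      calc (n:ℝ) ^ (e n) ≤ (n:ℝ) ^ δ :=
            Real.rpow_le_rpow_of_exponent_le h1 (hn₀ n (by omega)).le
        _ ≤ (X:ℝ) ^ δ := Real.rpow_le_rpow (by linarith) h2 hδ0.le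
  have hcard : (((Finset.Icc 1 X).filter P).card : ℝ) ≤ A + C * δ * X := by
    have h1 := (Finset.card_le_card hsub).trans (Finset.card_union_le _ _)
    rw [Nat.card_Icc] at h1
    have h2 := hX₀ X hXX₀ δ hδ0.le
    have h3 : ((((Finset.Icc 1 X).filter P).card : ℕ) : ℝ) ≤
        ((A + 1 - 1 + ((reps X δ).image (fun q => q.1 + q.2)).card : ℕ) : ℝ) := by exact_mod_cast h1
    have h4 : (((reps X δ).image (fun q => q.1 + q.2)).card : ℝ) ≤ (reps X δ).card := by
      exact_mod_cast Finset.card_image_le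
    rw [Nat.add_sub_cancel, Nat.cast_add] at h3
    linarith
  rw [Real.dist_eq, sub_zero, abs_of_nonneg (by positivity), div_lt_iff₀ hXpos]
  have h5 : C * δ = η / 4 := by
    rw [hδ]
    field_simp
  rw [h5] at hcard
  have h6 : (A:ℝ) * 4 < η * X := by
    rw [div_lt_iff₀ hη] at hX1r
    linarith
  nlinarith

theorem runs : ∃ c : ℝ, 0 < c ∧ ∀ L : ℕ, 1 ≤ L → ∀ N₀ : ℕ, ∃ N : ℕ, N₀ ≤ N ∧
    ∀ i : ℕ, 1 ≤ i → i ≤ L → ¬ Rep (N + i) (((N + i : ℕ) : ℝ) ^ (c / L)) := by
  classical
  obtain ⟨C, hC, hmean⟩ := mean_bound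
  obtain ⟨X₀, hX₀⟩ := eventually_atTop.mp hmean
  refine ⟨1 / (4 * C), by positivity, fun L hL N₀ => ?_⟩
  set c : ℝ := 1 / (4 * C) with hc
  have hLr : (1:ℝ) ≤ L := by exact_mod_cast hL
  have hc0 : 0 < c := by positivity
  by_contra hcon
  push Not at hcon
  set M := N₀ + X₀ + 3 with hM
  set X := 2 * (L * M) with hX
  have hML : M ≤ L * M := Nat.le_mul_of_pos_left M (by omega)
  have hXX₀ : X₀ ≤ X := by omega
  have hblock : ∀ j : ℕ, ∃ i : ℕ, 1 ≤ i ∧ i ≤ L ∧
      Rep (L * M + j * L + i) (((L * M + j * L + i : ℕ) : ℝ) ^ (c / L)) := by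
    intro j
    have h1 : N₀ ≤ L * M + j * L := by
      have := Nat.zero_le (j * L)
      omega
    obtain ⟨i, h2, h3, h4⟩ := hcon (L * M + j * L) h1
    exact ⟨i, h2, h3, h4⟩
  choose i hi1 hiL hrep using hblock
  have hcard : M ≤ ((reps X (c / L)).image (fun q => q.1 + q.2)).card := by
    have h1 : (Finset.range M).card ≤ ((reps X (c / L)).image (fun q => q.1 + q.2)).card := by
      apply Finset.card_le_card_of_injOn (fun j => L * M + j * L + i j)
      · intro j hj
        rw [Finset.mem_coe, Finset.mem_range] at hj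
        rw [Finset.mem_coe]
        have hjX : L * M + j * L + i j ≤ X := by
          have h2 : (j + 1) * L ≤ M * L := Nat.mul_le_mul_right L hj
          have h3 := hiL j
          have h4 : (j + 1) * L = j * L + L := by ring
          have h5 : M * L = L * M := Nat.mul_comm _ _
          omega
        refine mem_image_reps ?_ hjX ?_ (hrep j)
        · show 3 ≤ L * M + j * L + i j
          have := hi1 j
          have := Nat.zero_le (j * L)
          omega
        · apply Real.rpow_le_rpow (by positivity)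
          · exact_mod_cast hjX
          · positivity
      · intro a _ b _ hab
        simp only at hab
        have h1 := hi1 a
        have h2 := hi1 b
        have h3 := hiL a
        have h4 := hiL b
        rcases lt_trichotomy a b with h | h | h
        · exfalso
          have h5 : (a + 1) * L ≤ b * L := Nat.mul_le_mul_right L h
          have h6 : (a + 1) * L = a * L + L := by ring
          omega
        · exact h
        · exfalso
          have h5 : (b + 1) * L ≤ a * L := Nat.mul_le_mul_right L h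
          have h6 : (b + 1) * L = b * L + L := by ring
          omega
    rwa [Finset.card_range] at h1
  have h1 := hX₀ X hXX₀ (c / L) (by positivity)
  have h2 : (M:ℝ) ≤ (reps X (c / L)).card := by
    exact_mod_cast hcard.trans Finset.card_image_le
  have h3 : C * (c / L) * X = M / 2 := by
    rw [hX, hc]
    push_cast
    field_simp
    ring
  have h4 : (0:ℝ) < M := by
    have : 0 < M := by omega
    exact_mod_cast this
  rw [h3] at h1
  linarith

/-- a small `k` has a small factorial -/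
lemma factorial_le_rpow {k n : ℕ} {a : ℝ} (hk : 1 ≤ k) (hn : 1 < (n:ℝ)) (ha : a ≤ 1)
    (hll : 1 ≤ Real.log (Real.log n)) (h : (k:ℝ) ≤ a * Real.log n / Real.log (Real.log n)) :
    ((k.factorial : ℕ) : ℝ) ≤ (n:ℝ) ^ a := by
  have hl : 0 < Real.log n := Real.log_pos hn
  have hkr : (1:ℝ) ≤ k := by exact_mod_cast hk
  have hll0 : 0 < Real.log (Real.log n) := by linarith
  rw [le_div_iff₀ hll0] at h
  have hkl : (k:ℝ) ≤ Real.log n := by
    have h1 : (k:ℝ) * 1 ≤ k * Real.log (Real.log n) := mul_le_mul_of_nonneg_left hll (by linarith)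
    have h2 : a * Real.log n ≤ 1 * Real.log n := mul_le_mul_of_nonneg_right ha hl.le
    linarith
  have h1 : Real.log k ≤ Real.log (Real.log n) := Real.log_le_log (by linarith) hkl
  have h2 : Real.log k.factorial ≤ a * Real.log n :=
    (log_factorial_le k).trans ((mul_le_mul_of_nonneg_left h1 (by linarith)).trans h)
  have h3 : (0:ℝ) < k.factorial := by exact_mod_cast Nat.factorial_pos k
  rw [← Real.log_le_log_iff h3 (Real.rpow_pos_of_pos (by linarith) _), Real.log_rpow (by linarith)]
  exact h2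

/-- **Small factorials are not enough.** (1) The mean number of representations `n = k + m` with
`k! + p_m` prime, `k ≥ 2`, `k! ≤ X ^ ε` of the `n ≤ X` is at most `C ε`. (2), (3) For almost all
`n` every representation has `k! > n ^ (e n)` and `k > e n * log n / log log n`, for every function
`e` with limit `0`. (4) There are arbitrarily long runs of integers without a representation with
`k! ≤ n ^ (c / L)`, `L` the length of the run. -/
theorem result :
    (∃ C : ℝ, 0 < C ∧ ∃ X₀ : ℕ, ∀ X : ℕ, X₀ ≤ X → ∀ ε : ℝ, 0 ≤ ε →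
      ((reps X ε).card : ℝ) ≤ C * ε * X) ∧
    (∀ e : ℕ → ℝ, Tendsto e atTop (nhds 0) →
      DensityZero (fun n => Rep n ((n:ℝ) ^ (e n))) ∧
      DensityZero (fun n => ∃ k m : ℕ, 1 ≤ k ∧ 1 ≤ m ∧ k + m = n ∧
        (k:ℝ) ≤ e n * Real.log n / Real.log (Real.log n) ∧ (k.factorial + pr m).Prime)) ∧
    (∃ c : ℝ, 0 < c ∧ ∀ L : ℕ, 1 ≤ L → ∀ N₀ : ℕ, ∃ N : ℕ, N₀ ≤ N ∧
      ∀ i : ℕ, 1 ≤ i → i ≤ L → ¬ Rep (N + i) (((N + i : ℕ) : ℝ) ^ (c / L))) := by
  refine ⟨?_, fun e he => ⟨?_, ?_⟩, runs⟩
  · obtain ⟨C, hC, h⟩ := mean_bound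
    obtain ⟨X₀, hX₀⟩ := eventually_atTop.mp h
    exact ⟨C, hC, X₀, hX₀⟩
  · exact density_zero e he _ 0 (fun n _ h => h)
  · have h1 : ∀ᶠ n : ℕ in atTop, e n ≤ 1 ∧ 1 < (n:ℝ) ∧ 1 ≤ Real.log (Real.log n) := by
      have hll : Tendsto (fun n : ℕ => Real.log (Real.log n)) atTop atTop :=
        Real.tendsto_log_atTop.comp (Real.tendsto_log_atTop.comp (tendsto_natCast_atTop_atTop (R := ℝ)))
      have h2 := he.eventually (gt_mem_nhds (show (0:ℝ) < 1 by norm_num))
      filter_upwards [h2, hll.eventually_ge_atTop 1, eventually_gt_atTop 1] with n h2 h3 h4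
      exact ⟨h2.le, by exact_mod_cast h4, h3⟩
    obtain ⟨n₁, hn₁⟩ := eventually_atTop.mp h1
    refine density_zero e he _ n₁ (fun n hn h => ?_)
    obtain ⟨k, m, hk, hm, hkm, hke, hp⟩ := h
    obtain ⟨h2, h3, h4⟩ := hn₁ n hn
    exact ⟨k, m, hk, hm, hkm, factorial_le_rpow hk h3 h2 h4 hke, hp⟩

end Pool.Agent.Results.MP_de6458_nt.SmallFactorials
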